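import Pool.Agent.H550R3.Jones.Stmts2

/-!
# Task SanK: the crossings preserve the weight
-/

set_option autoImplicit false

namespace Pool.Agent.H610R3.J

open Pool.Agent.H550R3.Jones

theorem taskSanK : TaskSanK := by
  intro N v p q h
  by_contra hne
  rcases h with h | h
  · exact h (if_neg fun h' => hne h'.1)
  · exact h (if_neg fun h' => hne h'.1)

end Pool.Agent.H610R3.J
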